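import Pool.Agent.W603.PV.Hgt
import Mathlib.RingTheory.Nullstellensatz

/-!
# Orders and heights of the images of points under finite morphisms given by forms
-/

set_option autoImplicit false

namespace Pool.Agent.U582.GK

open MvPolynomial FF Pool.Agent.W603.LV Pool.Agent.W603.PV

variable {K : Type} [Field K] {m M e : ℕ}
  {W : Set (MvPolynomial (Fin (m + 1)) K)} {G : Fin (M + 1) → MvPolynomial (Fin (m + 1)) K}

/-- The Nullstellensatz for forms `G j` without common zero on `W`. -/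
theorem null [IsAlgClosed K] (h0 : ∀ y : Fin (m + 1) → K, (∀ H ∈ W, aeval y H = 0) →
    (∀ j, aeval y (G j) = 0) → y = 0) (a : Fin (m + 1)) :
    ∃ (N : ℕ) (P : Fin (M + 1) → MvPolynomial (Fin (m + 1)) K),
      ∀ (L : Type) [Field L] [Algebra K L] (v : Fin (m + 1) → L), (∀ H ∈ W, aeval v H = 0) →
        v a ^ N = ∑ j, aeval v (P j) * aeval v (G j) := by
  classical
  have h1 : (X a : MvPolynomial (Fin (m + 1)) K) ∈ (Ideal.span (W ∪ Set.range G)).radical := by
    rw [← vanishingIdeal_zeroLocus_eq_radical (K := K), mem_vanishingIdeal_iff]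
    intro x hx
    rw [mem_zeroLocus_iff] at hx
    have h2 := h0 x (fun H hH => hx _ (Ideal.subset_span (Or.inl hH)))
      (fun j => hx _ (Ideal.subset_span (Or.inr ⟨j, rfl⟩)))
    rw [aeval_X, h2]
    rfl
  obtain ⟨N, hN⟩ := Ideal.mem_radical_iff.1 h1
  rw [Ideal.span_union, Submodule.mem_sup] at hN
  obtain ⟨u, hu, v, hv, huv⟩ := hN
  obtain ⟨P, hP⟩ := (Ideal.mem_span_range_iff_exists_fun).1 hv
  refine ⟨N, P, fun L _ _ x hx => ?_⟩
  have h3 : aeval x u = 0 := by
    have h4 : Ideal.span W ≤ RingHom.ker (aeval x :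
        MvPolynomial (Fin (m + 1)) K →ₐ[K] L).toRingHom := by
      rw [Ideal.span_le]
      intro H hH
      exact hx H hH
    exact h4 hu
  have h5 := congrArg (aeval x) huv
  rw [map_add, h3, zero_add, ← hP, map_sum, map_pow, aeval_X] at h5
  rw [← h5]
  exact Finset.sum_congr rfl fun j _ => map_mul (aeval x) _ _

variable {L : Type} [Field L] [Algebra K L]

theorem aeval_smul {d : ℕ} {H : MvPolynomial (Fin (m + 1)) K} (hH : H.IsHomogeneous d) (c : L)
    (u : Fin (m + 1) → L) : aeval (fun i => c * u i) H = c ^ d * aeval u H := by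
  rw [aeval_def, aeval_def, eval₂_eq', eval₂_eq', Finset.mul_sum]
  refine Finset.sum_congr rfl fun α hα => ?_
  have h2 : ∑ a, α a = d := by
    have := hH (mem_support_iff.1 hα)
    rw [← this, Finsupp.weight_apply, Finsupp.sum_fintype _ _ (by simp)]
    simp
  simp_rw [mul_pow]
  rw [Finset.prod_mul_distrib, Finset.prod_pow_eq_pow_sum, h2]
  ring

/-- scaled coordinates at a place -/
theorem scaled (hW : ∀ H ∈ W, ∃ d, H.IsHomogeneous d) {u : Fin (m + 1) → L} (hu : u ≠ 0)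
    (huW : ∀ H ∈ W, aeval u H = 0) (Q : Place K L) :
    ∃ (j0 : Fin (m + 1)) (v : Fin (m + 1) → L), u j0 ≠ 0 ∧ Q.ord (u j0) = pord Q u ∧ v j0 = 1 ∧
      u = (fun j => u j0 * v j) ∧ (∀ H ∈ W, aeval v H = 0) ∧
      ∀ p : MvPolynomial (Fin (m + 1)) K, Ge Q 0 (aeval v p) := by
  obtain ⟨j0, hj0, hj0'⟩ := exists_pord Q (Function.ne_iff.1 hu)
  obtain ⟨v, hv⟩ : ∃ v : Fin (m + 1) → L, v = fun j => (u j0)⁻¹ * u j := ⟨_, rfl⟩
  have hv0 : v j0 = 1 := by
    rw [hv]
    exact inv_mul_cancel₀ hj0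
  have hvG : ∀ j, Ge Q 0 (v j) := by
    intro j
    have h0 : Ge Q (Q.ord (u j0)⁻¹) (u j0)⁻¹ := Or.inr le_rfl
    have h1 := h0.mul (ge_pord Q u j)
    rw [Q.ord_inv, hj0'] at h1
    rw [hv]
    exact h1.mono (by omega)
  have hvΨ : ∀ H ∈ W, aeval v H = 0 := by
    intro H hH
    obtain ⟨d, hd⟩ := hW H hH
    rw [hv, aeval_smul hd, huW H hH, mul_zero]
  refine ⟨j0, v, hj0, hj0', hv0, ?_, hvΨ, fun p => ?_⟩
  · funext j
    rw [hv]
    simp only
    rw [mul_inv_cancel_left₀ hj0]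
  · have h1 : aeval v p = ∑ c ∈ p.support, algebraMap K L (p.coeff c) * ∏ i, v i ^ c i := by
      rw [aeval_def, eval₂_eq']
    rw [h1]
    refine Ge.sum _ _ fun c _ => ?_
    have h2 : Ge Q (∑ _i : Fin (m + 1), (0 : ℤ)) (∏ i, v i ^ c i) :=
      Ge.prod _ _ _ fun i _ => by
        have := (hvG i).pow (c i)
        rwa [mul_zero] at this
    rw [Finset.sum_const_zero] at h2
    have h3 := (Ge.const (P := Q) (p.coeff c)).mul h2
    rwa [add_zero] at h3

/-- Orders of the images of points under a finite morphism given by forms. -/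
theorem pord_comp [IsAlgClosed K] (hG : ∀ j, (G j).IsHomogeneous e)
    (h0 : ∀ y : Fin (m + 1) → K, (∀ H ∈ W, aeval y H = 0) → (∀ j, aeval y (G j) = 0) → y = 0)
    (hW : ∀ H ∈ W, ∃ d, H.IsHomogeneous d) {u : Fin (m + 1) → L} (hu : u ≠ 0)
    (huW : ∀ H ∈ W, aeval u H = 0) (Q : Place K L) :
    pord Q (fun j => aeval u (G j)) = e * pord Q u ∧ (fun j => aeval u (G j)) ≠ 0 := by
  classical
  obtain ⟨j0, v, hj0, hj0', hv0, huv, hvW, hreg⟩ := scaled hW hu huW Q
  obtain ⟨N, P, hP⟩ := null h0 j0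
  have h1 := hP L v hvW
  rw [hv0, one_pow] at h1
  -- one of the values is a unit
  have h2 : ∃ j, aeval v (G j) ≠ 0 ∧ Q.ord (aeval v (G j)) = 0 := by
    by_contra hcon
    push Not at hcon
    have h3 : ∀ j, Ge Q 1 (aeval v (G j)) := by
      intro j
      by_cases h4 : aeval v (G j) = 0
      · exact Or.inl h4
      · rcases hreg (G j) with h5 | h5
        · exact Or.inl h5
        · exact Or.inr (by have := hcon j h4; omega)
    have h4 : Ge Q 1 (1 : L) := by
      rw [h1]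
      refine Ge.sum _ _ fun j _ => ?_
      have h5 := (hreg (P j)).mul (h3 j)
      rwa [zero_add] at h5
    rcases h4 with h5 | h5
    · exact one_ne_zero h5
    · rw [Q.ord_one] at h5
      omega
  obtain ⟨j1, h3, h4⟩ := h2
  have h5 : ∀ j, aeval u (G j) = u j0 ^ e * aeval v (G j) := by
    intro j
    conv_lhs => rw [huv]
    exact aeval_smul (hG j) _ _
  have h6 : aeval u (G j1) ≠ 0 := by
    rw [h5]
    exact mul_ne_zero (pow_ne_zero _ hj0) h3
  have h7 : Q.ord (aeval u (G j1)) = e * pord Q u := by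
    rw [h5, Q.ord_mul (pow_ne_zero _ hj0) h3, Q.ord_pow, h4, hj0', add_zero]
  have h8 : (fun j => aeval u (G j)) ≠ 0 := fun h => h6 (congrFun h j1)
  refine ⟨le_antisymm ?_ ?_, h8⟩
  · rw [← h7]
    exact pord_le Q (f := fun j => aeval u (G j)) h6
  · obtain ⟨j2, h9, h10⟩ := exists_pord Q (Function.ne_iff.1 h8)
    rw [← h10]
    change (e : ℤ) * pord Q u ≤ Q.ord (aeval u (G j2))
    change aeval u (G j2) ≠ 0 at h9
    rw [h5] at h9 ⊢
    have h11 : aeval v (G j2) ≠ 0 := right_ne_zero_of_mul h9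
    rw [Q.ord_mul (pow_ne_zero _ hj0) h11, Q.ord_pow, hj0']
    rcases hreg (G j2) with h12 | h12
    · exact absurd h12 h11
    · omega

theorem pht_comp [IsAlgClosed K] (hG : ∀ j, (G j).IsHomogeneous e)
    (h0 : ∀ y : Fin (m + 1) → K, (∀ H ∈ W, aeval y H = 0) → (∀ j, aeval y (G j) = 0) → y = 0)
    (hW : ∀ H ∈ W, ∃ d, H.IsHomogeneous d) {u : Fin (m + 1) → L} (hu : u ≠ 0)
    (huW : ∀ H ∈ W, aeval u H = 0) :
    pht K (fun j => aeval u (G j)) = e * pht K u := by
  unfold pht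
  rw [finsum_congr fun Q => (pord_comp hG h0 hW hu huW Q).1, mul_neg, mul_finsum]

end Pool.Agent.U582.GK
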