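import Pool.Agent.U582.GK.Cov
import Pool.Agent.W603.LV.Hgt

/-!
# Truncated counting: the number of the places at which a point meets divisors
-/

set_option autoImplicit false

namespace Pool.Agent.U582.GK

open MvPolynomial FF Pool.Agent.W603.LV Pool.Agent.W603.PV

variable {K : Type} [Field K] [IsAlgClosed K] [CharZero K] {L : Type} [Field L] [Algebra K L]
  [IsFF K L] {M : ℕ}

/-- the sum of the orders of contact with a divisor of degree `d`, over a finite set of places -/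
theorem excess_sum {d : ℕ} {y : L} {x : Fin (M + 1) → L} (hx : x ≠ 0)
    (hge : ∀ P : Place K L, d * pord P x ≤ P.ord y) (N : Finset (Place K L)) :
    ∑ P ∈ N, (P.ord y - d * pord P x) ≤ d * pht K x := by
  classical
  obtain ⟨T₀, hT₀⟩ := exists_supp (k := K) Finset.univ x
  obtain ⟨T₁, hT₁⟩ := exists_supp (k := K) {()} (fun _ : Unit => y)
  have h1 : ∀ P : Place K L, pord P x ≠ 0 → P ∈ T₀ := by
    intro P hP
    obtain ⟨j, -, hj⟩ := exists_pord P (Function.ne_iff.1 hx)
    exact hT₀ j (Finset.mem_univ j) P (by rw [hj]; exact hP)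
  obtain ⟨T, hT⟩ : ∃ T, T = N ∪ (T₀ ∪ T₁) := ⟨_, rfl⟩
  have h2 : pht K x = - ∑ P ∈ T, pord P x := by
    unfold pht
    rw [finsum_eq_sum_of_support_subset (s := T)]
    intro P hP
    rw [hT]
    exact Finset.mem_coe.2 (Finset.mem_union_right _ (Finset.mem_union_left _ (h1 P hP)))
  have h3 : ∑ P ∈ T, P.ord y = 0 := sum_ord_finset y T fun P hP => by
    rw [hT]
    exact Finset.mem_union_right _ (Finset.mem_union_right _
      (hT₁ () (Finset.mem_singleton_self _) P hP))
  calc ∑ P ∈ N, (P.ord y - d * pord P x) ≤ ∑ P ∈ T, (P.ord y - d * pord P x) := by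
        refine Finset.sum_le_sum_of_subset_of_nonneg ?_ fun P _ _ => by
          have := hge P
          omega
        rw [hT]
        exact Finset.subset_union_left
    _ = d * pht K x := by
        rw [Finset.sum_sub_distrib, h3, ← Finset.mul_sum, h2]
        ring

/-- the number of the places at which a point meets the divisors, if the contacts have order at
least `m` -/
theorem card_bound {q m : ℕ} (d : Fin q → ℕ) (hd : ∀ b, 0 < d b) (C : Finset (Fin q))
    (hC : C ≠ Finset.univ) (y : Fin q → L) {x : Fin (M + 1) → L} (hx : x ≠ 0)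
    (hge : ∀ b, b ∉ C → ∀ P : Place K L, d b * pord P x ≤ P.ord (y b)) (S : Finset (Place K L))
    (hm : ∀ b, b ∉ C → ∀ P ∉ S, P.ord (y b) = d b * pord P x ∨
      d b * pord P x + m ≤ P.ord (y b)) :
    0 ≤ pht K x ∧ ∃ N : Finset (Place K L),
      (∀ b, b ∉ C → ∀ P, P ∉ S → P ∉ N → P.ord (y b) = d b * pord P x) ∧
      (m : ℤ) * N.card ≤ (∑ b, d b : ℕ) * pht K x := by
  classical
  have h0 : 0 ≤ pht K x := by
    obtain ⟨b, -, hb⟩ := Finset.exists_of_ssubset (Finset.ssubset_univ_iff.2 hC)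
    have h1 := excess_sum hx (hge b hb) ∅
    rw [Finset.sum_empty] at h1
    have h2 : (0 : ℤ) < d b := by exact_mod_cast hd b
    exact nonneg_of_mul_nonneg_right h1 h2
  refine ⟨h0, ?_⟩
  obtain ⟨T₀, hT₀⟩ := exists_supp (k := K) Finset.univ x
  obtain ⟨T₁, hT₁⟩ := exists_supp (k := K) Finset.univ y
  have h1 : ∀ P : Place K L, pord P x ≠ 0 → P ∈ T₀ := by
    intro P hP
    obtain ⟨j, -, hj⟩ := exists_pord P (Function.ne_iff.1 hx)
    exact hT₀ j (Finset.mem_univ j) P (by rw [hj]; exact hP)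
  obtain ⟨N, hN⟩ : ∃ N, N = (T₀ ∪ T₁).filter fun P => P ∉ S ∧
      ∃ b, b ∉ C ∧ P.ord (y b) ≠ d b * pord P x := ⟨_, rfl⟩
  refine ⟨N, fun b hb P hPS hPN => ?_, ?_⟩
  · by_contra hne
    apply hPN
    rw [hN, Finset.mem_filter]
    refine ⟨?_, hPS, b, hb, hne⟩
    by_cases h2 : pord P x = 0
    · refine Finset.mem_union_right _ (hT₁ b (Finset.mem_univ b) P ?_)
      intro h3
      rw [h2, h3] at hne
      simp at hne
    · exact Finset.mem_union_left _ (h1 P h2)
  · have h2 : ∀ P ∈ N, (m : ℤ) ≤ ∑ b ∈ Cᶜ, (P.ord (y b) - d b * pord P x) := by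
      intro P hP
      rw [hN, Finset.mem_filter] at hP
      obtain ⟨-, hPS, b, hb, hne⟩ := hP
      have h3 : (m : ℤ) ≤ P.ord (y b) - d b * pord P x := by
        rcases hm b hb P hPS with h | h
        · exact absurd h hne
        · omega
      refine h3.trans (Finset.single_le_sum
        (f := fun b => P.ord (y b) - d b * pord P x) (fun c hc => ?_) (Finset.mem_compl.2 hb))
      have := hge c (Finset.mem_compl.1 hc) P
      change 0 ≤ P.ord (y c) - d c * pord P x
      omega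
    calc (m : ℤ) * N.card = ∑ P ∈ N, (m : ℤ) := by
          rw [Finset.sum_const, nsmul_eq_mul]
          ring
      _ ≤ ∑ P ∈ N, ∑ b ∈ Cᶜ, (P.ord (y b) - d b * pord P x) := Finset.sum_le_sum h2
      _ = ∑ b ∈ Cᶜ, ∑ P ∈ N, (P.ord (y b) - d b * pord P x) := Finset.sum_comm
      _ ≤ ∑ b ∈ Cᶜ, (d b : ℤ) * pht K x := Finset.sum_le_sum fun b hb =>
          excess_sum hx (hge b (Finset.mem_compl.1 hb)) N
      _ ≤ ∑ b, (d b : ℤ) * pht K x := by
          refine Finset.sum_le_sum_of_subset_of_nonneg (Finset.subset_univ _) fun b _ _ => ?_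
          positivity
      _ = (∑ b, d b : ℕ) * pht K x := by
          rw [← Finset.sum_mul]
          push_cast
          ring

/-- from curves in the complement to orbifold curves -/
theorem orb {q B₀ : ℕ} (d : Fin q → ℕ) (hd : ∀ b, 0 < d b) (C : Finset (Fin q))
    (hC : C ≠ Finset.univ) (y : Fin q → L) {x : Fin (M + 1) → L} (hx : x ≠ 0)
    (hge : ∀ b, b ∉ C → ∀ P : Place K L, d b * pord P x ≤ P.ord (y b)) (S : Finset (Place K L))
    (hm : ∀ b, b ∉ C → ∀ P ∉ S, P.ord (y b) = d b * pord P x ∨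
      d b * pord P x + (2 * B₀ * ∑ b, d b + 1 : ℕ) ≤ P.ord (y b))
    (h : ∀ N : Finset (Place K L), (∀ b, b ∉ C → ∀ P ∉ N, P.ord (y b) = d b * pord P x) →
      pht K x ≤ B₀ * max (canDeg K L + N.card) 0) :
    pht K x ≤ (2 * B₀ * ∑ b, d b + 1 : ℕ) * max (canDeg K L + S.card) 0 := by
  classical
  obtain ⟨h0, N, hN, hcard⟩ := card_bound d hd C hC y hx hge S hm
  have h1 := h (S ∪ N) fun b hb P hP => by
    rw [Finset.mem_union, not_or] at hP
    exact hN b hb P hP.1 hP.2
  have h2 : ((S ∪ N).card : ℤ) ≤ S.card + N.card := by exact_mod_cast Finset.card_union_le S N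
  obtain ⟨D, hD⟩ : ∃ D : ℤ, D = ((∑ b, d b : ℕ) : ℤ) := ⟨_, rfl⟩
  have hD1 : 1 ≤ D := by
    obtain ⟨b, -, hb⟩ := Finset.exists_of_ssubset (Finset.ssubset_univ_iff.2 hC)
    rw [hD]
    have : 1 ≤ ∑ b, d b := (hd b).trans_le
      (Finset.single_le_sum (f := d) (fun _ _ => Nat.zero_le _) (Finset.mem_univ b))
    exact_mod_cast this
  obtain ⟨X, hX⟩ : ∃ X, X = max (canDeg K L + S.card) 0 := ⟨_, rfl⟩
  have hX0 : 0 ≤ X := by rw [hX]; exact le_max_right _ _
  have h3 : max (canDeg K L + (S ∪ N).card) 0 ≤ X + N.card := by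
    refine max_le ?_ (by positivity)
    have : canDeg K L + S.card ≤ X := by rw [hX]; exact le_max_left _ _
    omega
  have h4 : pht K x ≤ B₀ * X + B₀ * N.card := by
    have h5 := mul_le_mul_of_nonneg_left h3 (Int.natCast_nonneg B₀)
    linarith
  have hcast : ((2 * B₀ * ∑ b, d b + 1 : ℕ) : ℤ) = 2 * B₀ * D + 1 := by
    rw [hD]
    push_cast
    ring
  rw [hcast] at hcard ⊢
  rw [← hD] at hcard
  rw [← hX]
  have hNn : (0 : ℤ) ≤ N.card := Int.natCast_nonneg _
  have hB : (0 : ℤ) ≤ B₀ := Int.natCast_nonneg _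
  -- `2 B₀ |N| ≤ pht`
  have h6 : 2 * B₀ * (N.card : ℤ) ≤ pht K x := by
    by_contra hcon
    push Not at hcon
    have h7 : D * pht K x < D * (2 * B₀ * (N.card : ℤ)) :=
      mul_lt_mul_of_pos_left hcon (by omega)
    nlinarith
  have h8 : pht K x ≤ 2 * (B₀ * X) := by linarith
  have h9 : 2 * (B₀ * X) ≤ (2 * B₀ * D + 1) * X := by
    have h10 : (0 : ℤ) ≤ B₀ * X := mul_nonneg hB hX0
    have h11 : B₀ * X ≤ B₀ * X * D := le_mul_of_one_le_right h10 hD1
    nlinarith
  linarith

end Pool.Agent.U582.GK
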